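import Pool.Agent.Q161.Lyap.Cost

/-!
# Closed-loop cost matrix versus decay rate

For `T = A - B F` stable with `m < n`, the matrix `Y = Tᴴ X₀ T` solves the Lyapunov equation
of `S = T⁻¹`, so `tr Y⁻¹ = -2 Re tr S ≤ 2 n / γ`, hence `Y ≥ (γ / 2n) I`.  Testing with a
unit vector in the kernel of `F`, where `T v = A v`, gives `‖X₀‖ ≥ γ / (2 n ‖A‖²)`.
-/

open MeasureTheory Filter Topology Matrix Polynomial Set
open scoped Matrix.Norms.L2Operator ComplexOrder

namespace Pool.Agent.Results.MP_cf5fc4_an.CostVersusDecay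

open Pool.Agent.Q161.Lyap

variable {n : ℕ}

/-- squared Euclidean norm -/
noncomputable def nrm (x : Fin n → ℂ) : ℝ := ∑ i, ‖x i‖ ^ 2

lemma nrm_nonneg (x : Fin n → ℂ) : 0 ≤ nrm x := Finset.sum_nonneg fun _ _ => by positivity

lemma nrm_pos {x : Fin n → ℂ} (hx : x ≠ 0) : 0 < nrm x := by
  obtain ⟨i, hi⟩ := Function.ne_iff.mp hx
  refine lt_of_lt_of_le ?_ (Finset.single_le_sum (f := fun i => ‖x i‖ ^ 2)
    (fun _ _ => by positivity) (Finset.mem_univ i))
  have : 0 < ‖x i‖ := norm_pos_iff.mpr hi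
  positivity

lemma star_dot_self (x : Fin n → ℂ) : star x ⬝ᵥ x = (nrm x : ℂ) := by
  unfold nrm
  simp only [dotProduct, Pi.star_apply, Complex.ofReal_sum]
  apply Finset.sum_congr rfl
  intro i _
  rw [Complex.ofReal_pow, ← Complex.conj_mul']
  rfl

lemma norm_toLp (x : Fin n → ℂ) : ‖(WithLp.toLp 2 x : EuclideanSpace ℂ (Fin n))‖ ^ 2 = nrm x := by
  rw [EuclideanSpace.norm_sq_eq]; rfl

lemma mulVec_nrm_le (M : Matrix (Fin n) (Fin n) ℂ) (x : Fin n → ℂ) :
    nrm (M *ᵥ x) ≤ ‖M‖ ^ 2 * nrm x := by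
  have h := l2_opNorm_mulVec M (WithLp.toLp 2 x : EuclideanSpace ℂ (Fin n))
  have h1 : ‖(WithLp.toLp 2 (M *ᵥ x) : EuclideanSpace ℂ (Fin n))‖
      ≤ ‖M‖ * ‖(WithLp.toLp 2 x : EuclideanSpace ℂ (Fin n))‖ := h
  rw [← norm_toLp, ← norm_toLp, ← mul_pow]
  exact pow_le_pow_left₀ (norm_nonneg _) h1 2

lemma quad_le (M : Matrix (Fin n) (Fin n) ℂ) (x : Fin n → ℂ) :
    (star x ⬝ᵥ (M *ᵥ x)).re ≤ ‖M‖ * nrm x := by
  have h := l2_opNorm_mulVec M (WithLp.toLp 2 x : EuclideanSpace ℂ (Fin n))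
  have h1 : ‖(WithLp.toLp 2 (M *ᵥ x) : EuclideanSpace ℂ (Fin n))‖
      ≤ ‖M‖ * ‖(WithLp.toLp 2 x : EuclideanSpace ℂ (Fin n))‖ := h
  have h2 := norm_inner_le_norm (𝕜 := ℂ) (WithLp.toLp 2 x : EuclideanSpace ℂ (Fin n))
    (WithLp.toLp 2 (M *ᵥ x) : EuclideanSpace ℂ (Fin n))
  rw [EuclideanSpace.inner_toLp_toLp, dotProduct_comm] at h2
  calc (star x ⬝ᵥ (M *ᵥ x)).re ≤ ‖star x ⬝ᵥ (M *ᵥ x)‖ := Complex.re_le_norm _
    _ ≤ _ := h2
    _ ≤ ‖(WithLp.toLp 2 x : EuclideanSpace ℂ (Fin n))‖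
        * (‖M‖ * ‖(WithLp.toLp 2 x : EuclideanSpace ℂ (Fin n))‖) := by gcongr
    _ = ‖M‖ * nrm x := by rw [← norm_toLp]; ring

/-- For a positive semidefinite matrix the quadratic form is bounded by the trace. -/
lemma quad_le_trace {M : Matrix (Fin n) (Fin n) ℂ} (hM : M.PosSemidef) (x : Fin n → ℂ) :
    (star x ⬝ᵥ (M *ᵥ x)).re ≤ M.trace.re * nrm x := by
  classical
  obtain ⟨C, hC⟩ : ∃ C : Matrix (Fin n) (Fin n) ℂ, M = Cᴴ * C := by
    open scoped MatrixOrder in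
    obtain ⟨C, hC⟩ := (CStarAlgebra.nonneg_iff_eq_star_mul_self (a := M)).mp hM.nonneg
    exact ⟨C, hC⟩
  have h1 : star x ⬝ᵥ (M *ᵥ x) = (nrm (C *ᵥ x) : ℂ) := by
    rw [hC, ← mulVec_mulVec, dotProduct_mulVec, ← star_mulVec, star_dot_self]
  have h2 : M.trace = ((∑ i, ∑ j, ‖C i j‖ ^ 2 : ℝ) : ℂ) := by
    rw [hC, trace]
    simp only [diag_apply, mul_apply, conjTranspose_apply]
    rw [Finset.sum_comm]
    push_cast
    apply Finset.sum_congr rfl; intro i _
    apply Finset.sum_congr rfl; intro j _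
    rw [← Complex.conj_mul']
    rfl
  rw [h1, h2, Complex.ofReal_re, Complex.ofReal_re]
  unfold nrm
  rw [Finset.sum_mul]
  apply Finset.sum_le_sum
  intro i _
  calc ‖(C *ᵥ x) i‖ ^ 2 ≤ (∑ j, ‖C i j‖ * ‖x j‖) ^ 2 := by
        apply pow_le_pow_left₀ (norm_nonneg _)
        simp only [mulVec, dotProduct]
        refine (norm_sum_le _ _).trans_eq ?_
        exact Finset.sum_congr rfl fun j _ => norm_mul _ _
    _ ≤ _ := Finset.sum_mul_sq_le_sq_mul_sq _ _ _

lemma det_isUnit {T : Matrix (Fin n) (Fin n) ℂ} (hT : IsStable T) : IsUnit T := by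
  by_contra h
  have : (0 : ℂ) ∈ spectrum ℂ T := by
    rw [spectrum.zero_mem_iff]; exact h
  have := hT 0 this
  simp at this

/-- Bound for the trace of the inverse. -/
lemma trace_inv_bound {T : Matrix (Fin n) (Fin n) ℂ} (hn : 0 < n) (hT : IsStable T) :
    -(T⁻¹.trace.re) ≤ n / decayRate T := by
  have hγ := decayRate_pos hn hT
  have hU := det_isUnit hT
  rw [trace_eq_sum_roots_charpoly]
  have hcard : Multiset.card (T⁻¹.charpoly.roots) = n := by
    rw [IsAlgClosed.card_roots_eq_natDegree, charpoly_natDegree_eq_dim, Fintype.card_fin]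
  have hroot : ∀ z ∈ T⁻¹.charpoly.roots, -z.re ≤ 1 / decayRate T := by
    intro z hz
    have hz1 : z ∈ spectrum ℂ T⁻¹ := by
      rw [mem_spectrum_iff_isRoot_charpoly]
      exact (mem_roots'.mp hz).2
    have hz0 : z ≠ 0 := by
      rintro rfl
      rw [spectrum.zero_mem_iff] at hz1
      exact hz1 ((isUnit_nonsing_inv_iff).mpr hU)
    have hzT : z⁻¹ ∈ spectrum ℂ T := by
      obtain ⟨u, hu⟩ := hU
      have e1 : T⁻¹ = ((u⁻¹ : (Matrix (Fin n) (Fin n) ℂ)ˣ) : Matrix (Fin n) (Fin n) ℂ) := by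
        rw [coe_units_inv, hu]
      have := (spectrum.inv_mem_iff (r := Units.mk0 z hz0)
        (a := (u⁻¹ : (Matrix (Fin n) (Fin n) ℂ)ˣ))).mp (by rw [← e1]; exact hz1)
      rw [inv_inv, hu] at this
      simpa using this
    have h1 := decayRate_le T hzT
    have h2 : (z⁻¹).re = z.re / (z.re ^ 2 + z.im ^ 2) := by
      rw [Complex.inv_re, Complex.normSq_apply]; ring_nf
    rw [h2] at h1
    have hs : 0 < z.re ^ 2 + z.im ^ 2 := by
      have : 0 < Complex.normSq z := Complex.normSq_pos.mpr hz0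
      rw [Complex.normSq_apply] at this; nlinarith
    rw [le_div_iff₀ hγ]
    rw [div_le_iff₀ hs] at h1
    -- `z.re ≤ -γ (re² + im²)`
    have hre : z.re < 0 := by nlinarith
    by_contra hcon
    push Not at hcon
    nlinarith [sq_nonneg z.im, mul_pos hγ hs, mul_pos (neg_pos.mpr hre) hγ]
  have hsum : ∀ s : Multiset ℂ, (∀ z ∈ s, -z.re ≤ 1 / decayRate T) →
      -(s.sum.re) ≤ Multiset.card s / decayRate T := by
    intro s
    induction s using Multiset.induction_on with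
    | empty => intro _; simp
    | cons a s ih =>
      intro h
      have h1 := h a (Multiset.mem_cons_self a s)
      have h2 := ih (fun z hz => h z (Multiset.mem_cons_of_mem hz))
      rw [Multiset.sum_cons, Complex.add_re, Multiset.card_cons]
      push_cast
      rw [add_div]
      linarith
  have := hsum _ hroot
  rwa [hcard] at this

/-- The main inequality. -/
theorem main {m : ℕ} (hmn : m < n) (A : Matrix (Fin n) (Fin n) ℂ)
    (B : Matrix (Fin n) (Fin m) ℂ) (F : Matrix (Fin m) (Fin n) ℂ) (hT : IsStable (A - B * F)) :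
    decayRate (A - B * F) ≤ 2 * n * ‖A‖ ^ 2 * ‖costMatrix (A - B * F)‖ := by
  have hn : 0 < n := by omega
  set T := A - B * F with hTdef
  have hγ := decayRate_pos hn hT
  set X := costMatrix T with hX
  have hXpd : X.PosDef := costMatrix_posDef T hn hT
  have hU := det_isUnit hT
  have hdet : IsUnit T.det := (isUnit_iff_isUnit_det T).mp hU
  have hXdet : IsUnit X.det := hXpd.det_pos.ne'.isUnit
  set S := T⁻¹ with hS
  have hTS : T * S = 1 := mul_nonsing_inv T hdet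
  have hST : S * T = 1 := nonsing_inv_mul T hdet
  have hXX : X * X⁻¹ = 1 := mul_nonsing_inv X hXdet
  have hXX' : X⁻¹ * X = 1 := nonsing_inv_mul X hXdet
  have hTSc : Sᴴ * Tᴴ = 1 := by rw [← conjTranspose_mul, hTS, conjTranspose_one]
  have hSTc : Tᴴ * Sᴴ = 1 := by rw [← conjTranspose_mul, hST, conjTranspose_one]
  have hly : Tᴴ * X + X * T = -1 := lyapunov hn hT
  -- `W = Y⁻¹`
  set W := S * X⁻¹ * Sᴴ with hW
  set Y := Tᴴ * X * T with hY
  have hYW : Y * W = 1 := by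
    rw [hY, hW]
    calc Tᴴ * X * T * (S * X⁻¹ * Sᴴ) = Tᴴ * X * (T * S) * X⁻¹ * Sᴴ := by
          simp only [mul_assoc]
      _ = Tᴴ * (X * X⁻¹) * Sᴴ := by rw [hTS, mul_one]; simp only [mul_assoc]
      _ = 1 := by rw [hXX, mul_one, hSTc]
  have hWtr : W.trace = -(S.trace + star S.trace) := by
    have h1 : Sᴴ * (Tᴴ * X + X * T) * S = X * S + Sᴴ * X := by
      calc Sᴴ * (Tᴴ * X + X * T) * S = (Sᴴ * Tᴴ) * X * S + Sᴴ * X * (T * S) := by
            simp only [mul_add, add_mul, mul_assoc]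
        _ = X * S + Sᴴ * X := by rw [hTSc, hTS, one_mul, mul_one]
    have h2 : X⁻¹ * (X * S + Sᴴ * X) = S + X⁻¹ * Sᴴ * X := by
      rw [mul_add, ← mul_assoc, hXX', one_mul, mul_assoc]
    have h3 : S + X⁻¹ * Sᴴ * X = -(X⁻¹ * Sᴴ * S) := by
      rw [← h2, ← h1, hly]; simp [mul_assoc]
    have h4 : (X⁻¹ * Sᴴ * X).trace = star S.trace := by
      rw [trace_mul_comm, ← mul_assoc, hXX, one_mul, trace_conjTranspose]
    have h5 : W.trace = (X⁻¹ * Sᴴ * S).trace := by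
      rw [hW, mul_assoc, trace_mul_comm]
    have h6 := congrArg Matrix.trace h3
    rw [trace_add, trace_neg, h4] at h6
    rw [h5, h6, neg_neg]
  have hWpsd : W.PosSemidef := by
    rw [hW]
    exact hXpd.inv.posSemidef.mul_mul_conjTranspose_same S
  have hYpsd : Y.PosSemidef := by
    rw [hY]
    exact hXpd.posSemidef.conjTranspose_mul_mul_same T
  set τ : ℝ := 2 * n / decayRate T with hτ
  have hτpos : 0 < τ := by positivity
  have hτW : W.trace.re ≤ τ := by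
    rw [hWtr]
    have h1 := trace_inv_bound hn hT
    have h2 : (star S.trace).re = S.trace.re := by simp
    rw [Complex.neg_re, Complex.add_re, h2, hτ]
    have : 2 * (n : ℝ) / decayRate T = n / decayRate T + n / decayRate T := by ring
    rw [this, hS]; linarith
  -- lower bound for `Y`
  have hYlow : ∀ x : Fin n → ℂ, nrm x / τ ≤ (star x ⬝ᵥ (Y *ᵥ x)).re := by
    intro x
    set c : ℝ := 1 / τ with hc
    have hz := (hYpsd.dotProduct_mulVec_nonneg (x - (c : ℂ) • (W *ᵥ x)))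
    have hYWx : Y *ᵥ (W *ᵥ x) = x := by rw [mulVec_mulVec, hYW, one_mulVec]
    have hWh : Wᴴ = W := hWpsd.isHermitian
    have hYh : Yᴴ = Y := hYpsd.isHermitian
    have e1 : star (W *ᵥ x) ⬝ᵥ (Y *ᵥ x) = (nrm x : ℂ) := by
      rw [star_mulVec, hWh, ← dotProduct_mulVec, mulVec_mulVec]
      have hWY : W * Y = 1 := by
        have := congrArg conjTranspose hYW
        rwa [conjTranspose_mul, hWh, hYh, conjTranspose_one] at this
      rw [hWY, one_mulVec, star_dot_self]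
    have e2 : star (W *ᵥ x) ⬝ᵥ x = star x ⬝ᵥ (W *ᵥ x) := by
      rw [star_mulVec, hWh, ← dotProduct_mulVec]
    have hexp : star (x - (c : ℂ) • (W *ᵥ x)) ⬝ᵥ (Y *ᵥ (x - (c : ℂ) • (W *ᵥ x)))
        = star x ⬝ᵥ (Y *ᵥ x) - 2 * c * (nrm x : ℂ) + c ^ 2 * (star x ⬝ᵥ (W *ᵥ x)) := by
      rw [mulVec_sub, mulVec_smul, hYWx, star_sub, star_smul, sub_dotProduct, dotProduct_sub,
        dotProduct_sub, smul_dotProduct, smul_dotProduct, dotProduct_smul, dotProduct_smul,
        e1, e2, star_dot_self]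
      simp only [smul_eq_mul, Complex.star_def, Complex.conj_ofReal]
      ring
    rw [hexp] at hz
    have hzre := (Complex.le_def.mp hz).1
    simp only [Complex.zero_re, Complex.add_re, Complex.sub_re] at hzre
    have e3 : (2 * (c : ℂ) * (nrm x : ℂ)).re = 2 * c * nrm x := by
      rw [← Complex.ofReal_ofNat, ← Complex.ofReal_mul, ← Complex.ofReal_mul, Complex.ofReal_re]
    have e4 : ((c : ℂ) ^ 2 * (star x ⬝ᵥ (W *ᵥ x))).re = c ^ 2 * (star x ⬝ᵥ (W *ᵥ x)).re := by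
      rw [← Complex.ofReal_pow, Complex.re_ofReal_mul]
    rw [e3, e4] at hzre
    have h5 := quad_le_trace hWpsd x
    have h6 : (star x ⬝ᵥ (W *ᵥ x)).re ≤ τ * nrm x :=
      h5.trans (mul_le_mul_of_nonneg_right hτW (nrm_nonneg x))
    have h7 : c ^ 2 * (star x ⬝ᵥ (W *ᵥ x)).re ≤ c ^ 2 * (τ * nrm x) := by gcongr
    have h8 : c ^ 2 * (τ * nrm x) = nrm x / τ := by
      rw [hc]; field_simp
    have h9 : 2 * c * nrm x = 2 * (nrm x / τ) := by rw [hc]; ring
    linarith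
  -- a vector in the kernel of `F`
  obtain ⟨v, hv0, hFv⟩ : ∃ v : Fin n → ℂ, v ≠ 0 ∧ F *ᵥ v = 0 := by
    have hker : LinearMap.ker F.mulVecLin ≠ ⊥ :=
      LinearMap.ker_ne_bot_of_finrank_lt (by simpa using hmn)
    obtain ⟨v, hv, hv0⟩ := Submodule.exists_mem_ne_zero_of_ne_bot hker
    exact ⟨v, hv0, by simpa using hv⟩
  have hTv : T *ᵥ v = A *ᵥ v := by
    rw [hTdef, sub_mulVec, ← mulVec_mulVec, hFv, mulVec_zero, sub_zero]
  have h1 := hYlow v
  have h2 : star v ⬝ᵥ (Y *ᵥ v) = star (A *ᵥ v) ⬝ᵥ (X *ᵥ (A *ᵥ v)) := by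
    rw [hY, ← mulVec_mulVec, ← mulVec_mulVec, hTv, dotProduct_mulVec, ← star_mulVec, hTv]
  rw [h2] at h1
  have h3 := quad_le X (A *ᵥ v)
  have h4 := mulVec_nrm_le A v
  have h5 : nrm v / τ ≤ ‖X‖ * (‖A‖ ^ 2 * nrm v) :=
    h1.trans (h3.trans (mul_le_mul_of_nonneg_left h4 (norm_nonneg _)))
  have hvp := nrm_pos hv0
  have h6 : 1 / τ ≤ ‖X‖ * ‖A‖ ^ 2 := by
    have : nrm v * (1 / τ) ≤ nrm v * (‖X‖ * ‖A‖ ^ 2) := by
      calc nrm v * (1 / τ) = nrm v / τ := by ring
        _ ≤ _ := h5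
        _ = _ := by ring
    exact le_of_mul_le_mul_left this hvp
  have h7 : 1 / τ = decayRate T / (2 * n) := by
    rw [hτ]; field_simp
  rw [h7, div_le_iff₀ (by positivity)] at h6
  linarith

/-- **Positive answer to Q1 (and Q2)**, with an explicit `G`.  For all `1 ≤ m < n` and every
complex `n × n` matrix `A` there is `G : ℝ → ℝ` tending to `+∞` at `+∞`, with
`‖X₀(A - B F)‖ ≥ G (γ_decay (A - B F))` for all `B`, `F` such that `A - B F` is stable; for
`A ≠ 0` one may take `G x = x / (2 n ‖A‖²)` (for `A = 0` no `A - B F` is stable). -/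
theorem result : ∀ n m : ℕ, 1 ≤ m → m < n → ∀ A : Matrix (Fin n) (Fin n) ℂ,
    ∃ G : ℝ → ℝ, Tendsto G atTop atTop ∧
      (A ≠ 0 → ∀ x, G x = x / (2 * n * ‖A‖ ^ 2)) ∧
      (∀ (B : Matrix (Fin n) (Fin m) ℂ) (F : Matrix (Fin m) (Fin n) ℂ),
        IsStable (A - B * F) → A ≠ 0 ∧ G (decayRate (A - B * F)) ≤ ‖costMatrix (A - B * F)‖) := by
  intro n m _ hmn A
  have hn : (0 : ℝ) < n := by exact_mod_cast (by omega : 0 < n)
  by_cases hA : A = 0
  · refine ⟨id, tendsto_id, fun h => absurd hA h, ?_⟩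
    intro B F hT
    exfalso
    have h := main hmn A B F hT
    have hγ := decayRate_pos (by omega) hT
    rw [hA] at h
    simp only [norm_zero] at h
    rw [hA] at hγ
    norm_num at h
    exact absurd hγ (not_lt.mpr (by simpa using h))
  · have hA' : 0 < ‖A‖ := norm_pos_iff.mpr hA
    refine ⟨fun x => x / (2 * n * ‖A‖ ^ 2), ?_, fun _ _ => rfl, ?_⟩
    · exact tendsto_id.atTop_div_const (by positivity)
    · intro B F hT
      refine ⟨hA, ?_⟩
      have h := main hmn A B F hT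
      simp only
      rw [div_le_iff₀ (by positivity)]
      linarith

end Pool.Agent.Results.MP_cf5fc4_an.CostVersusDecay
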